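import Mathlib
import Pool.Agent.Y568.CP.Space
import Pool.Agent.Y568.CP.Card
import Pool.Agent.Helper695.CompactHD

set_option autoImplicit false

open Cardinal Order Set Filter Topology

namespace Pool.Agent.Results.MP_1d4a49_gt.SingularCardinals

/-- The Suslin number (cellularity) `c(X)`: the least infinite cardinal `κ` such that every family
of pairwise disjoint nonempty open subsets of `X` has cardinality at most `κ`. -/
noncomputable def cellularity (X : Type) [TopologicalSpace X] : Cardinal.{0} :=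
  sInf {κ : Cardinal.{0} | ℵ₀ ≤ κ ∧ ∀ U : Set (Set X), (∀ u ∈ U, IsOpen u ∧ u.Nonempty) →
    (∀ u ∈ U, ∀ v ∈ U, u ≠ v → Disjoint u v) → #U ≤ κ}

/-- The hereditary cellularity `cc(X)`: the supremum of `c(Y)` over all subspaces `Y` of `X`. -/
noncomputable def hereditaryCellularity (X : Type) [TopologicalSpace X] : Cardinal.{0} :=
  ⨆ Y : Set X, cellularity Y

theorem cellularity_nonempty (X : Type) [TopologicalSpace X] :
    {κ : Cardinal.{0} | ℵ₀ ≤ κ ∧ ∀ U : Set (Set X), (∀ u ∈ U, IsOpen u ∧ u.Nonempty) →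
    (∀ u ∈ U, ∀ v ∈ U, u ≠ v → Disjoint u v) → #U ≤ κ}.Nonempty :=
  ⟨max ℵ₀ #(Set X), le_max_left _ _, fun U _ _ => (mk_set_le U).trans (le_max_right _ _)⟩

theorem le_cellularity {X : Type} [TopologicalSpace X] (U : Set (Set X))
    (h1 : ∀ u ∈ U, IsOpen u ∧ u.Nonempty) (h2 : ∀ u ∈ U, ∀ v ∈ U, u ≠ v → Disjoint u v) :
    #U ≤ cellularity X :=
  (csInf_mem (cellularity_nonempty X)).2 U h1 h2

theorem cellularity_le {X : Type} [TopologicalSpace X] {τ : Cardinal.{0}} (hτ : ℵ₀ ≤ τ)
    (h : ∀ U : Set (Set X), (∀ u ∈ U, IsOpen u ∧ u.Nonempty) →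
      (∀ u ∈ U, ∀ v ∈ U, u ≠ v → Disjoint u v) → #U ≤ τ) : cellularity X ≤ τ :=
  csInf_le' ⟨hτ, h⟩

theorem cellularity_le_cc {X : Type} [TopologicalSpace X] (Y : Set X) :
    cellularity Y ≤ hereditaryCellularity X :=
  le_ciSup (f := fun Y : Set X => cellularity Y) Cardinal.bddAbove_of_small Y

/-- The tightness `t(X)`: the least cardinal `κ` such that for every `A ⊆ X` the closure of `A` is
the union of the closures of the subsets of `A` of size at most `κ`. -/
noncomputable def tightness (X : Type) [TopologicalSpace X] : Cardinal.{0} :=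
  sInf {κ : Cardinal.{0} | ∀ (A : Set X) (p : X), p ∈ closure A →
    ∃ B : Set X, B ⊆ A ∧ #B ≤ κ ∧ p ∈ closure B}

theorem tightness_nonempty (X : Type) [TopologicalSpace X] :
    {κ : Cardinal.{0} | ∀ (A : Set X) (p : X), p ∈ closure A →
    ∃ B : Set X, B ⊆ A ∧ #B ≤ κ ∧ p ∈ closure B}.Nonempty :=
  ⟨#X, fun A _ hp => ⟨A, Subset.rfl, mk_set_le A, hp⟩⟩

/-- `X` is a Tychonoff space with `cc(X) = τ` and tightness greater than `τ`; every compact
Hausdorff space `K` containing `X` (as a dense subspace or not) has tightness and hereditary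
cellularity greater than `τ`. -/
def Bad (τ : Cardinal.{0}) (X : Type) [TopologicalSpace X] : Prop :=
  T35Space X ∧ hereditaryCellularity X = τ ∧ τ < tightness X ∧
    ∀ (K : Type) [TopologicalSpace K] [CompactSpace K] [T2Space K] (f : X → K),
      IsEmbedding f → τ < tightness K ∧ τ < hereditaryCellularity K

open Pool.Agent.Y568.CP

section

variable [Sq]

/-- The discrete subsets of the scale have size at most `mu`. -/
theorem discrete_small (W : Set Lam)
    (hW : ∀ α ∈ W, ∃ O : Set X, IsOpen O ∧ X.sc α ∈ O ∧ ∀ β ∈ W, X.sc β ∈ O → β = α) :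
    #W ≤ mu := by
  by_contra hcon
  push Not at hcon
  have hn : ∀ α ∈ W, ∃ n, ∀ β ∈ W, X.sc β ∈ C (Sum.inl (res α n)) → X.sc β ∈ C (Sum.inr α) →
      β = α := by
    intro α hα
    obtain ⟨O, hO, h1, h2⟩ := hW α hα
    have h3 : X.sc α ∉ closure Oᶜ := by
      rw [hO.isClosed_compl.closure_eq]
      exact fun h => h h1
    rw [mem_closure_iff_C] at h3
    push Not at h3
    obtain ⟨J, hJ⟩ := h3
    obtain ⟨n, hn⟩ := nhd_sc α J
    refine ⟨n, fun β hβ h4 h5 => h2 β hβ ?_⟩
    by_contra h6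
    obtain ⟨i, hi, hi2⟩ := hJ _ h6
    have h7 := hn _ h4 h5 i hi
    tauto
  choose! n hn using hn
  have hp : ∃ l₀ : List M, mu < #{α : Lam | α ∈ W ∧ res α (n α) = l₀} := by
    by_contra hcon2
    push Not at hcon2
    have h1 : W ⊆ ⋃ l₀ : List M, {α : Lam | α ∈ W ∧ res α (n α) = l₀} := by
      intro α hα
      simp only [mem_iUnion]
      exact ⟨_, hα, rfl⟩
    have h2 : #W ≤ mu := by
      refine (mk_le_mk_of_subset h1).trans ((mk_iUnion_le _).trans ?_)
      calc #(List M) * ⨆ l₀ : List M, #{α : Lam | α ∈ W ∧ res α (n α) = l₀} ≤ mu * mu :=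
            mul_le_mul' mk_List_M.le (ciSup_le' hcon2)
        _ = mu := mul_eq_self aleph0_le_mu
    exact absurd h2 (not_le.mpr hcon)
  obtain ⟨l₀, hl₀⟩ := hp
  obtain ⟨l, hl1, hl2⟩ := good _ (unbounded_of_lt _ hl₀) l₀.length
  obtain ⟨β₀, -⟩ := bounded_Lam ∅ (by simp)
  obtain ⟨α, hα, hα1, -⟩ := hl2 (F β₀) (F_lt β₀)
  have hz : ∀ k, ∃ z < g k, F α k < z := by
    intro k
    obtain ⟨z, hz1, hz2⟩ := g_bdd k {F α k} (by
      rw [mk_singleton]; exact one_lt_aleph0.le.trans (le_max_left _ _)) (by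
      rintro y rfl; exact F_lt α k)
    exact ⟨z, hz1, hz2 _ rfl⟩
  choose z hz1 hz2 using hz
  obtain ⟨β, hβ, hβ1, hβ2⟩ := hl2 z hz1
  have hlt : ∀ m, l.length ≤ m → F α m < F β m := fun m hm => (hz2 m).trans_le (hβ2 m hm)
  have heq : ∀ m, m < l.length → F β m = F α m := by
    intro m hm
    have h4 : l[m]? = some l[m] := List.getElem?_eq_getElem hm
    rw [hβ1 m _ h4, hα1 m _ h4]
  have hβα : β = α := by
    refine hn α hα.1 β hβ.1 ?_ ?_
    · intro m y hy
      have hm : m < n α := by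
        by_contra hm
        rw [res_get' α _ m (by omega)] at hy
        exact absurd hy (by simp)
      have hm2 : m < l.length := by
        have : l₀.length = n α := by rw [← hα.2, res_length]
        omega
      rw [res_get α _ m hm] at hy
      simp only [val]
      rw [heq m hm2]; exact hy
    · intro m y hy
      simp only [val, Option.some.injEq] at hy
      rw [← hy]
      by_cases hm : m < l.length
      · exact (heq m hm).ge
      · exact (hlt m (by omega)).le
  have := hlt l.length le_rfl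
  rw [hβα] at this
  exact lt_irrefl _ this

/-- `cc(X) ≤ mu`. -/
theorem cc_X : hereditaryCellularity X ≤ mu := by
  classical
  refine ciSup_le' fun Y => cellularity_le aleph0_le_mu fun U hU1 hU2 => ?_
  -- choose points
  have hpt : ∀ u : U, ∃ x : Y, x ∈ u.1 := fun u => (hU1 u.1 u.2).2
  choose pt hpt using hpt
  have hinj : Function.Injective pt := by
    intro u v h
    by_contra hne
    have h1 := hU2 u.1 u.2 v.1 v.2 (fun h => hne (Subtype.ext h))
    exact disjoint_left.mp h1 (hpt u) (by rw [h]; exact hpt v)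
  -- indices of the points of the scale
  let W : Set Lam := {α | ∃ u : U, (pt u).1 = X.sc α}
  have hW : #W ≤ mu := by
    apply discrete_small
    rintro α ⟨u, hu⟩
    obtain ⟨O, hO, hO2⟩ := isOpen_induced_iff.mp (hU1 u.1 u.2).1
    refine ⟨O, hO, ?_, ?_⟩
    · have := hpt u
      rw [← hO2, mem_preimage, hu] at this
      exact this
    · rintro β ⟨v, hv⟩ hβ
      have h1 : pt v ∈ u.1 := by
        rw [← hO2, mem_preimage, hv]; exact hβ
      have h2 : u = v := by
        by_contra hne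
        exact disjoint_left.mp (hU2 u.1 u.2 v.1 v.2 (fun h => hne (Subtype.ext h))) h1 (hpt v)
      rw [← h2, hu] at hv
      exact (X.sc.inj hv).symm
  have h1 : range (fun u => (pt u).1) ⊆ range X.fin ∪ X.sc '' W := by
    rintro _ ⟨u, rfl⟩
    cases h : (pt u).1 with
    | fin l => exact Or.inl ⟨l, h.symm ▸ rfl⟩
    | sc α => exact Or.inr ⟨α, ⟨u, h⟩, h.symm ▸ rfl⟩
  calc #U = #(range fun u => (pt u).1) :=
        (mk_range_eq _ (Subtype.val_injective.comp hinj)).symm
    _ ≤ #(range X.fin ∪ X.sc '' W : Set X) := mk_le_mk_of_subset h1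
    _ ≤ #(range X.fin) + #(X.sc '' W) := mk_union_le _ _
    _ ≤ mu + mu := add_le_add (mk_range_le.trans mk_List_M.le) (mk_image_le.trans hW)
    _ = mu := add_eq_self aleph0_le_mu

/-- `cc(X) ≥ mu`. -/
theorem cc_X_ge : mu ≤ hereditaryCellularity X := by
  let Y : Set X := range fun y : M => X.fin [y]
  have hinj : Function.Injective fun y : M => X.fin [y] := by
    intro y z h
    simpa using h
  let U : Set (Set Y) := range fun y : Y => {y}
  have h1 : #U ≤ cellularity Y := by
    apply le_cellularity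
    · rintro u ⟨⟨_, ⟨y, rfl⟩⟩, rfl⟩
      refine ⟨?_, singleton_nonempty _⟩
      have hO : IsOpen (C (Sum.inl [y]) : Set X) := by
        rw [← isClosed_compl_iff, ← closure_subset_iff_isClosed]
        intro x hx hx2
        rw [mem_closure_iff_C] at hx
        obtain ⟨a, ha, ha2⟩ := hx {Sum.inl [y]}
        exact ha ((ha2 _ (by simp)).2 hx2)
      refine isOpen_induced_iff.mpr ⟨_, hO, ?_⟩
      ext ⟨_, ⟨z, rfl⟩⟩
      simp only [mem_preimage, mem_singleton_iff]
      constructor
      · intro h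
        have h3 := h 0 y rfl
        simp only [val, List.length_cons, List.length_nil, List.getElem?_cons_zero,
          Option.some.injEq] at h3
        subst h3
        rfl
      · intro h
        have h3 : X.fin [z] = X.fin [y] := congrArg Subtype.val h
        show X.fin [z] ∈ C (Sum.inl [y])
        rw [h3]
        exact fun m w hw => hw
    · rintro u ⟨y, rfl⟩ v ⟨z, rfl⟩ hne
      rw [disjoint_singleton]
      intro h; exact hne (by rw [h])
  have h2 : #U = mu := by
    rw [mk_range_eq _ (fun y z h => singleton_injective h), mk_range_eq _ hinj, mk_M]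
  rw [← h2]
  exact h1.trans (cellularity_le_cc Y)

/-- the tightness of `X` is greater than `mu` -/
theorem tight_X (htight : ∀ (A : Set X) (p : X), p ∈ closure A → ∃ B : Set X, B ⊆ A ∧ #B ≤ mu ∧
      p ∈ closure B) : False := by
  obtain ⟨D₀, h1, h2, h3⟩ := closed_density (closure Z) isClosed_closure
  have h4 : ∀ d ∈ D₀, ∃ B : Set X, B ⊆ Z ∧ #B ≤ mu ∧ d ∈ closure B := fun d hd =>
    htight _ _ (h1 hd)
  choose! V hV using h4
  refine Z_not_dense (⋃ b ∈ D₀, V b) (iUnion₂_subset fun b hb => (hV b hb).1) ?_ ?_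
  · refine (mk_biUnion_le _ _).trans ?_
    calc #D₀ * ⨆ b : D₀, #(V b.1) ≤ mu * mu :=
          mul_le_mul' h3 (ciSup_le' fun b => (hV b.1 b.2).2.1)
      _ = mu := mul_eq_self aleph0_le_mu
  · have h5 : D₀ ⊆ closure (⋃ b ∈ D₀, V b) := fun b hb =>
      closure_mono (subset_biUnion_of_mem (u := fun b => V b) hb) (hV b hb).2.2
    exact (subset_closure.trans h2).trans (closure_minimal h5 isClosed_closure)

end

/-- A space with `cc(K) ≤ τ` has no free sequence of length `τ⁺`. -/
theorem cc_no_free {K : Type} [TopologicalSpace K] [T1Space K] (τ : Cardinal.{0}) (hτ : ℵ₀ ≤ τ)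
    (hK : hereditaryCellularity K ≤ τ) (x : (succ τ).ord.ToType → K)
    (hx : ∀ β, Disjoint (closure (x '' Iio β)) (closure (x '' Ici β))) : False := by
  have hinj := Pool.Agent.Helper695.CompactHD.free_injective hτ hx
  let U : Set (Set (range x)) := range fun y : range x => {y}
  have h1 : #U ≤ cellularity (range x) := by
    apply le_cellularity
    · rintro u ⟨⟨_, ⟨α, rfl⟩⟩, rfl⟩
      refine ⟨?_, singleton_nonempty _⟩
      obtain ⟨O, hO, h1, _, h2⟩ := Pool.Agent.Helper695.CompactHD.free_isolated hτ hx α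
      refine isOpen_induced_iff.mpr ⟨O, hO, ?_⟩
      ext ⟨_, ⟨β, rfl⟩⟩
      simp only [mem_preimage, mem_singleton_iff]
      constructor
      · intro h
        have h3 := h2 β h
        subst h3
        rfl
      · intro h
        have h3 : x β = x α := congrArg Subtype.val h
        rw [h3]; exact h1
    · rintro u ⟨y, rfl⟩ v ⟨z, rfl⟩ hne
      rw [disjoint_singleton]
      intro h; exact hne (by rw [h])
  have h2 : #U = succ τ := by
    rw [mk_range_eq _ (fun y z h => singleton_injective h), mk_range_eq x hinj]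
    simp
  have h3 := h1.trans ((cellularity_le_cc (range x)).trans hK)
  rw [h2] at h3
  exact absurd h3 (not_le.mpr (lt_succ τ))

/-- if `t(K) ≤ τ` then the defining property of the tightness holds for `τ` -/
theorem tight_of_le {K : Type} [TopologicalSpace K] {τ : Cardinal.{0}} (h : tightness K ≤ τ)
    (A : Set K) (p : K) (hp : p ∈ closure A) : ∃ B : Set K, B ⊆ A ∧ #B ≤ τ ∧ p ∈ closure B := by
  obtain ⟨B, h1, h2, h3⟩ := csInf_mem (tightness_nonempty K) A p hp
  exact ⟨B, h1, h2.trans h, h3⟩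

theorem lt_tightness {K : Type} [TopologicalSpace K] {τ : Cardinal.{0}}
    (h : ¬ ∀ (A : Set K) (p : K), p ∈ closure A → ∃ B : Set K, B ⊆ A ∧ #B ≤ τ ∧ p ∈ closure B) :
    τ < tightness K := by
  by_contra hcon
  rw [not_lt] at hcon
  exact h fun A p hp => tight_of_le hcon A p hp

/-- the property of `τ` is inherited by subspaces -/
theorem tight_sub {X K : Type} [TopologicalSpace X] [TopologicalSpace K] {τ : Cardinal.{0}}
    {f : X → K} (hf : IsEmbedding f)
    (h : ∀ (A : Set K) (p : K), p ∈ closure A → ∃ B : Set K, B ⊆ A ∧ #B ≤ τ ∧ p ∈ closure B)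
    (A : Set X) (p : X) (hp : p ∈ closure A) : ∃ B : Set X, B ⊆ A ∧ #B ≤ τ ∧ p ∈ closure B := by
  have h5 : f p ∈ closure (f '' A) := by
    rwa [hf.isInducing.closure_eq_preimage_closure_image] at hp
  obtain ⟨B, hB1, hB2, hB3⟩ := h _ _ h5
  refine ⟨f ⁻¹' B, ?_, (mk_preimage_of_injective _ _ hf.injective).trans hB2, ?_⟩
  · intro x hx
    obtain ⟨z, hz, hzx⟩ := hB1 hx
    rwa [← hf.injective hzx]
  · rw [hf.isInducing.closure_eq_preimage_closure_image, mem_preimage,
      image_preimage_eq_of_subset (hB1.trans (image_subset_range _ _))]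
    exact hB3

theorem bad_mu [Sq] : Bad mu X := by
  refine ⟨inferInstance, le_antisymm cc_X cc_X_ge, lt_tightness fun h => tight_X h, ?_⟩
  intro K _ _ _ f hf
  have h1 : ¬ ∀ (A : Set K) (p : K), p ∈ closure A →
      ∃ B : Set K, B ⊆ A ∧ #B ≤ mu ∧ p ∈ closure B := fun h => tight_X (tight_sub hf h)
  refine ⟨lt_tightness h1, ?_⟩
  by_contra hcon
  rw [not_lt] at hcon
  apply h1
  intro A p hp
  by_contra hcon2
  push Not at hcon2
  obtain ⟨x, hx⟩ := Pool.Agent.Helper695.CompactHD.exists_free mu aleph0_le_mu A p hp hcon2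
  exact cc_no_free mu aleph0_le_mu hcon x hx

theorem bad_of (τ : Cardinal.{0}) (c : ℕ → Cardinal.{0}) (h0 : ℵ₀ < τ) (hc : ∀ n, c n < τ)
    (hτ : τ = ⨆ n, c n) (hcl : ∀ ν < τ, ν ^ ℵ₀ < τ) :
    ∃ (X : Type) (_ : TopologicalSpace X), Bad τ X := by
  obtain ⟨i, hi⟩ := exists_Sq τ c h0 hc hτ hcl
  subst hi
  exact ⟨X, inferInstance, bad_mu⟩

theorem bad_iter (κ : Cardinal.{0}) (hκ : ℵ₀ ≤ κ) (h : κ ^ ℵ₀ = κ) :
    ∃ (X : Type) (_ : TopologicalSpace X), Bad (⨆ n : ℕ, succ^[n] κ) X :=
  bad_of _ (fun n => succ^[n] κ) (hκ.trans_lt (iter_lt κ 0)) (iter_lt κ) rfl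
    (iter_closed κ hκ h)

/-- **Negative answer to Q1 for a proper class of cardinals, in particular for the least limit
cardinal above the continuum, in a strong form.**

1. Let `τ` be an uncountable cardinal of countable cofinality (the supremum of a sequence of
   smaller cardinals) with `ν ^ ℵ₀ < τ` for all `ν < τ`. There is a Tychonoff space `X` with
   `cc(X) = τ` and tightness greater than `τ` such that every compact Hausdorff space `K`
   containing `X`, as a dense subspace or not, has tightness greater than `τ` and `cc(K) > τ`.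
2. For every infinite `κ` with `κ ^ ℵ₀ = κ` (for example the continuum) this holds for
   `τ = κ^{+ω}`, the supremum of `κ, κ⁺, κ⁺⁺, ...`.
3. Such `τ` exist above every cardinal. -/
theorem result :
    (∀ (τ : Cardinal.{0}) (c : ℕ → Cardinal.{0}), ℵ₀ < τ → (∀ n, c n < τ) → τ = ⨆ n, c n →
      (∀ ν < τ, ν ^ ℵ₀ < τ) → ∃ (X : Type) (_ : TopologicalSpace X), Bad τ X) ∧
    (∀ κ : Cardinal.{0}, ℵ₀ ≤ κ → κ ^ ℵ₀ = κ →
      ∃ (X : Type) (_ : TopologicalSpace X), Bad (⨆ n : ℕ, succ^[n] κ) X) ∧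
    (∀ κ : Cardinal.{0}, ∃ τ : Cardinal.{0}, κ < τ ∧
      ∃ (X : Type) (_ : TopologicalSpace X), Bad τ X) := by
  refine ⟨bad_of, bad_iter, fun κ => ?_⟩
  let κ' : Cardinal.{0} := (max κ ℵ₀) ^ ℵ₀
  have h1 : max κ ℵ₀ ≤ κ' := by
    calc max κ ℵ₀ = (max κ ℵ₀) ^ (1 : Cardinal.{0}) := (power_one _).symm
      _ ≤ (max κ ℵ₀) ^ ℵ₀ := Cardinal.power_le_power_left
        (ne_of_gt (aleph0_pos.trans_le (le_max_right _ _))) one_lt_aleph0.le
  have h2 : κ' ^ ℵ₀ = κ' := by
    show ((max κ ℵ₀) ^ ℵ₀) ^ ℵ₀ = (max κ ℵ₀) ^ ℵ₀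
    rw [← power_mul, aleph0_mul_aleph0]
  exact ⟨_, ((le_max_left _ _).trans h1).trans_lt (iter_lt κ' 0),
    bad_iter κ' ((le_max_right _ _).trans h1) h2⟩

end Pool.Agent.Results.MP_1d4a49_gt.SingularCardinals
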